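import Mathlib

/-!
# Finite 2-groups with very few automorphisms

For every real `a > 0` there is a finite 2-group `G` with `|Aut G| < φ(|G|) ^ a`.

The group `Gp k e` is the semidirect product of a group `N` of class two by a group of order two.
`N` is generated by `x_0, …, x_{k-1}` of order `2 ^ e`, where `x_i` and `x_j` commute if `i` and `j`
are neighbours on a cycle of length `k`, and all other commutators `[x_i, x_j]` are independent
central elements of order `2 ^ e`; the involution inverts every `x_i`.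
-/

set_option autoImplicit false

namespace Pool.Agent.Results.MP_a94181_al.SmallAut

/-- neighbours on the cycle `0, 1, …, k - 1` -/
def Adj (k : ℕ) (i j : Fin k) : Prop :=
  i.val + 1 = j.val ∨ j.val + 1 = i.val ∨ (i.val = 0 ∧ j.val + 1 = k) ∨ (j.val = 0 ∧ i.val + 1 = k)

/-- the pairs `i < j` that are not neighbours -/
abbrev P (k : ℕ) : Type := {x : Fin k × Fin k // x.1 < x.2 ∧ ¬ Adj k x.1 x.2}

noncomputable instance (k : ℕ) : Fintype (P k) := Fintype.ofFinite _

/-- the ring `Z / 2 ^ e` -/
abbrev R (e : ℕ) : Type := ZMod (2 ^ e)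

/-- underlying set of the group -/
@[ext] structure Gp (k e : ℕ) where
  s : ℤˣ
  v : Fin k → R e
  z : P k → R e

variable {k e : ℕ}

/-- the sign as an element of the ring -/
def sg (e : ℕ) (s : ℤˣ) : R e := ((s : ℤ) : R e)

lemma sg_mul (s t : ℤˣ) : sg e (s * t) = sg e s * sg e t := by
  simp [sg]

lemma sg_one : sg e 1 = 1 := by simp [sg]

lemma sg_neg_one : sg e (-1) = -1 := by simp [sg]

lemma sg_sq (s : ℤˣ) : sg e s * sg e s = 1 := by
  rw [← sg_mul, Int.units_mul_self, sg_one]

instance : Mul (Gp k e) where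
  mul x y :=
    { s := x.s * y.s
      v := fun i => x.v i + sg e x.s * y.v i
      z := fun p => x.z p + y.z p + sg e x.s * (x.v p.1.1 * y.v p.1.2) }

instance : One (Gp k e) where
  one := { s := 1, v := fun _ => 0, z := fun _ => 0 }

instance : Inv (Gp k e) where
  inv x :=
    { s := x.s
      v := fun i => - (sg e x.s * x.v i)
      z := fun p => - x.z p + x.v p.1.1 * x.v p.1.2 }

@[simp] lemma mul_s (x y : Gp k e) : (x * y).s = x.s * y.s := rfl
@[simp] lemma mul_v (x y : Gp k e) (i : Fin k) : (x * y).v i = x.v i + sg e x.s * y.v i := rfl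
@[simp] lemma mul_z (x y : Gp k e) (p : P k) :
    (x * y).z p = x.z p + y.z p + sg e x.s * (x.v p.1.1 * y.v p.1.2) := rfl
@[simp] lemma one_s : (1 : Gp k e).s = 1 := rfl
@[simp] lemma one_v (i : Fin k) : (1 : Gp k e).v i = 0 := rfl
@[simp] lemma one_z (p : P k) : (1 : Gp k e).z p = 0 := rfl
@[simp] lemma inv_s (x : Gp k e) : (x⁻¹).s = x.s := rfl
@[simp] lemma inv_v (x : Gp k e) (i : Fin k) : (x⁻¹).v i = - (sg e x.s * x.v i) := rfl
@[simp] lemma inv_z (x : Gp k e) (p : P k) : (x⁻¹).z p = - x.z p + x.v p.1.1 * x.v p.1.2 := rfl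

instance : Group (Gp k e) :=
  Group.ofLeftAxioms
    (by
      intro x y w
      ext i
      · simp [mul_assoc]
      · simp only [mul_v, mul_s, sg_mul]
        ring
      · simp only [mul_z, mul_v, mul_s, sg_mul]
        have h := sg_sq (e := e) x.s
        linear_combination (sg e y.s * y.v i.1.1 * w.v i.1.2) * h)
    (by
      intro x
      ext i
      · simp
      · simp [sg_one]
      · simp [sg_one])
    (by
      intro x
      ext i
      · simp [Int.units_mul_self]
      · simp
      · have h := sg_sq (e := e) x.s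
        simp only [mul_z, inv_z, inv_v, inv_s, one_z]
        linear_combination (- x.v i.1.1 * x.v i.1.2) * h)


/-- the involution -/
def tt : Gp k e := { s := -1, v := fun _ => 0, z := fun _ => 0 }

/-- the elements `c • x_i` -/
def xx (i : Fin k) (c : R e) : Gp k e := { s := 1, v := Pi.single i c, z := fun _ => 0 }

/-- central elements -/
def zz (z : P k → R e) : Gp k e := { s := 1, v := fun _ => 0, z := z }

@[simp] lemma tt_s : (tt : Gp k e).s = -1 := rfl
@[simp] lemma tt_v (i : Fin k) : (tt : Gp k e).v i = 0 := rfl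
@[simp] lemma tt_z (p : P k) : (tt : Gp k e).z p = 0 := rfl
@[simp] lemma xx_s (i : Fin k) (c : R e) : (xx i c : Gp k e).s = 1 := rfl
@[simp] lemma xx_v (i : Fin k) (c : R e) : (xx i c : Gp k e).v = Pi.single i c := rfl
@[simp] lemma xx_z (i : Fin k) (c : R e) (p : P k) : (xx i c : Gp k e).z p = 0 := rfl
@[simp] lemma zz_s (z : P k → R e) : (zz z : Gp k e).s = 1 := rfl
@[simp] lemma zz_v (z : P k → R e) (i : Fin k) : (zz z : Gp k e).v i = 0 := rfl
@[simp] lemma zz_z (z : P k → R e) : (zz z : Gp k e).z = z := rfl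

lemma single_mul_single (i : Fin k) (a b : R e) (p : P k) :
    (Pi.single i a : Fin k → R e) p.1.1 * (Pi.single i b : Fin k → R e) p.1.2 = 0 := by
  have hlt : p.1.1 < p.1.2 := p.2.1
  by_cases h1 : p.1.1 = i
  · have h2 : p.1.2 ≠ i := by
      intro h2
      rw [h1, h2] at hlt
      exact lt_irrefl _ hlt
    rw [Pi.single_eq_of_ne h2]
    simp
  · rw [Pi.single_eq_of_ne h1]
    simp

/-- the generators -/
def gens (k e : ℕ) : Set (Gp k e) := {tt} ∪ Set.range (fun i : Fin k => xx i 1)

lemma tt_mem : (tt : Gp k e) ∈ Subgroup.closure (gens k e) :=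
  Subgroup.subset_closure (Or.inl rfl)

lemma xx_one_mem (i : Fin k) : (xx i 1 : Gp k e) ∈ Subgroup.closure (gens k e) :=
  Subgroup.subset_closure (Or.inr ⟨i, rfl⟩)

lemma xx_mul (i : Fin k) (a b : R e) : (xx i a * xx i b : Gp k e) = xx i (a + b) := by
  ext j
  · simp
  · simp only [mul_v, xx_v, xx_s, sg_one, one_mul]
    rw [← Pi.add_apply, ← Pi.single_add]
  · simp only [mul_z, xx_z, xx_v, single_mul_single]
    simp

lemma xx_mem [NeZero (2 ^ e)] (i : Fin k) (c : R e) :
    (xx i c : Gp k e) ∈ Subgroup.closure (gens k e) := by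
  have key : ∀ n : ℕ, (xx i (n : R e) : Gp k e) ∈ Subgroup.closure (gens k e) := by
    intro n
    induction n with
    | zero =>
      have : (xx i ((0 : ℕ) : R e) : Gp k e) = 1 := by
        ext j
        · simp
        · simp
        · simp
      rw [this]
      exact one_mem _
    | succ n ih =>
      have : (xx i ((n + 1 : ℕ) : R e) : Gp k e) = xx i (n : R e) * xx i 1 := by
        rw [xx_mul]
        push_cast
        rfl
      rw [this]
      exact mul_mem ih (xx_one_mem i)
  have := key c.val
  rwa [ZMod.natCast_zmod_val] at this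

lemma zz_mul (a b : P k → R e) : (zz a * zz b : Gp k e) = zz (a + b) := by
  ext j
  · simp
  · simp
  · simp

lemma zz_single_mem [NeZero (2 ^ e)] (p : P k) (c : R e) :
    (zz (Pi.single p c) : Gp k e) ∈ Subgroup.closure (gens k e) := by
  have h : (zz (Pi.single p c) : Gp k e) = xx p.1.1 c * xx p.1.2 1 * (xx p.1.2 1 * xx p.1.1 c)⁻¹ := by
    rw [eq_mul_inv_iff_mul_eq]
    ext q
    · simp
    · simp only [mul_v, zz_v, zz_s, xx_v, xx_s, sg_one]
      ring
    · simp only [mul_z, mul_v, zz_v, zz_s, zz_z, xx_v, xx_z, xx_s, sg_one]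
      have h1 : (Pi.single p.1.2 (1 : R e) : Fin k → R e) q.1.1 *
          (Pi.single p.1.1 c : Fin k → R e) q.1.2 = 0 := by
        by_cases h1 : q.1.1 = p.1.2
        · have h2 : q.1.2 ≠ p.1.1 := by
            intro h2
            have a1 : q.1.1 < q.1.2 := q.2.1
            have a2 : p.1.1 < p.1.2 := p.2.1
            rw [h1, h2] at a1
            exact lt_asymm a1 a2
          rw [Pi.single_eq_of_ne h2]
          simp
        · rw [Pi.single_eq_of_ne h1]
          simp
      have h2 : (Pi.single p.1.1 c : Fin k → R e) q.1.1 *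
          (Pi.single p.1.2 (1 : R e) : Fin k → R e) q.1.2 = (Pi.single p c : P k → R e) q := by
        by_cases hq : q = p
        · subst hq
          simp
        · rw [Pi.single_eq_of_ne hq]
          by_cases h1 : q.1.1 = p.1.1
          · have h2 : q.1.2 ≠ p.1.2 := by
              intro h2
              exact hq (Subtype.ext (Prod.ext h1 h2))
            rw [Pi.single_eq_of_ne h2]
            simp
          · rw [Pi.single_eq_of_ne h1]
            simp
      linear_combination h1 - h2
  rw [h]
  exact mul_mem (mul_mem (xx_mem _ _) (xx_mem _ _)) (inv_mem (mul_mem (xx_mem _ _) (xx_mem _ _)))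

lemma zz_mem [NeZero (2 ^ e)] (z : P k → R e) :
    (zz z : Gp k e) ∈ Subgroup.closure (gens k e) := by
  classical
  have key : ∀ T : Finset (P k), (zz (∑ p ∈ T, Pi.single p (z p)) : Gp k e) ∈
      Subgroup.closure (gens k e) := by
    intro T
    induction T using Finset.induction_on with
    | empty =>
      have : (zz (∑ p ∈ (∅ : Finset (P k)), Pi.single p (z p)) : Gp k e) = 1 := by
        ext j <;> simp
      rw [this]
      exact one_mem _
    | insert p T hp ih =>
      rw [Finset.sum_insert hp, ← zz_mul]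
      exact mul_mem (zz_single_mem p _) ih
  have := key Finset.univ
  rwa [Finset.univ_sum_single] at this

lemma one_v_mem [NeZero (2 ^ e)] (v : Fin k → R e) (z : P k → R e) :
    ({ s := 1, v := v, z := z } : Gp k e) ∈ Subgroup.closure (gens k e) := by
  classical
  have key : ∀ T : Finset (Fin k), ∀ z : P k → R e,
      ({ s := 1, v := ∑ i ∈ T, Pi.single i (v i), z := z } : Gp k e) ∈
      Subgroup.closure (gens k e) := by
    intro T
    induction T using Finset.induction_on with
    | empty =>
      intro z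
      have : ({ s := 1, v := ∑ i ∈ (∅ : Finset (Fin k)), Pi.single i (v i), z := z } : Gp k e) =
          zz z := by
        ext j <;> simp
      rw [this]
      exact zz_mem z
    | insert i T hi ih =>
      intro z
      have : ({ s := 1, v := ∑ i ∈ insert i T, Pi.single i (v i), z := z } : Gp k e) =
          xx i (v i) * { s := 1, v := ∑ i ∈ T, Pi.single i (v i),
                         z := fun p => z p - (Pi.single i (v i) : Fin k → R e) p.1.1 *
                          (∑ i ∈ T, Pi.single i (v i) : Fin k → R e) p.1.2 } := by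
        ext j
        · simp
        · simp only [mul_v, xx_v, xx_s, sg_one, Finset.sum_insert hi, Pi.add_apply, one_mul]
        · simp only [mul_z, xx_v, xx_z, xx_s, sg_one]
          ring
      rw [this]
      exact mul_mem (xx_mem _ _) (ih _)
  have := key Finset.univ z
  rwa [Finset.univ_sum_single] at this

lemma closure_gens [NeZero (2 ^ e)] : Subgroup.closure (gens k e) = ⊤ := by
  rw [eq_top_iff]
  intro g _
  rcases Int.units_eq_one_or g.s with h | h
  · have : g = { s := 1, v := g.v, z := g.z } := by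
      ext j
      · simp [h]
      · rfl
      · rfl
    rw [this]
    exact one_v_mem _ _
  · have : g = { s := 1, v := g.v, z := g.z } * tt := by
      ext j
      · simp [h]
      · simp
      · simp
    rw [this]
    exact mul_mem (one_v_mem _ _) tt_mem

/-- automorphisms agreeing on the generators are equal -/
lemma aut_ext [NeZero (2 ^ e)] (f g : MulAut (Gp k e)) (ht : f tt = g tt)
    (hx : ∀ i, f (xx i 1) = g (xx i 1)) : f = g := by
  have h : f.toMonoidHom = g.toMonoidHom := by
    apply MonoidHom.eq_of_eqOn_dense closure_gens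
    rintro x (hx' | ⟨i, rfl⟩)
    · rw [Set.mem_singleton_iff] at hx'
      rw [hx']
      exact ht
    · exact hx i
  ext1 x
  exact DFunLike.congr_fun h x


/-! ### squares and central elements -/

/-- `g` commutes with everything -/
def Cen (g : Gp k e) : Prop := ∀ h : Gp k e, g * h = h * g

lemma sq_cen_of_neg {g : Gp k e} (h : g.s = -1) : Cen (g * g) := by
  intro x
  ext j
  · simp [h]
  · simp only [mul_v, mul_s, h, sg_neg_one, sg_one, mul_one, mul_neg, neg_neg]
    ring
  · simp only [mul_z, mul_v, mul_s, h, sg_neg_one, sg_one, mul_one, mul_neg, neg_neg]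
    ring

lemma cen_map (f : MulAut (Gp k e)) {g : Gp k e} (h : Cen (f g)) : Cen g := by
  intro x
  apply f.injective
  rw [map_mul, map_mul]
  exact h _

lemma map_cen (f : MulAut (Gp k e)) {g : Gp k e} (h : Cen g) : Cen (f g) := by
  intro x
  obtain ⟨y, rfl⟩ := f.surjective x
  rw [← map_mul, ← map_mul, h]

lemma cen_four {g : Gp k e} (h : Cen g) (i : Fin k) : 2 * g.v i = 0 := by
  have := congrArg (fun x : Gp k e => x.v i) (h tt)
  simp only [mul_v, tt_v, tt_s, sg_neg_one] at this
  linear_combination this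

lemma four_ne (he : 3 ≤ e) : (4 : R e) ≠ 0 := by
  intro h
  have h1 : ((4 : ℕ) : R e) = 0 := by exact_mod_cast h
  rw [ZMod.natCast_eq_zero_iff] at h1
  have h2 := Nat.le_of_dvd (by norm_num) h1
  have h3 : 2 ^ 3 ≤ 2 ^ e := Nat.pow_le_pow_right (by norm_num) he
  omega

lemma two_ne (he : 3 ≤ e) : (2 : R e) ≠ 0 := by
  intro h
  apply four_ne he
  linear_combination 2 * h

lemma not_cen_sq (he : 3 ≤ e) (i : Fin k) : ¬ Cen (xx i 1 * xx i 1 : Gp k e) := by
  intro h
  have := cen_four h i
  simp only [mul_v, xx_v, xx_s, sg_one, Pi.single_eq_same] at this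
  apply four_ne he
  linear_combination this

variable (f : MulAut (Gp k e))

lemma map_xx_s (he : 3 ≤ e) (i : Fin k) : (f (xx i 1)).s = 1 := by
  rcases Int.units_eq_one_or (f (xx i 1)).s with h | h
  · exact h
  · exfalso
    apply not_cen_sq he i
    apply cen_map f
    rw [map_mul]
    exact sq_cen_of_neg h

lemma rel1 (i : Fin k) : (xx i 1 * tt * xx i 1 : Gp k e) = tt := by
  ext j
  · simp
  · simp only [mul_v, mul_s, xx_v, xx_s, tt_v, tt_s, sg_one, one_mul, sg_neg_one]
    ring
  · simp only [mul_z, mul_v, mul_s, xx_v, xx_s, xx_z, tt_v, tt_s, tt_z, sg_one, one_mul,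
      sg_neg_one, mul_zero, add_zero]
    rw [single_mul_single]
    simp

lemma rel2 : (tt * tt : Gp k e) = 1 := by
  ext j
  · simp
  · simp
  · simp

lemma map_tt_s (he : 3 ≤ e) (i : Fin k) : (f tt).s = -1 := by
  rcases Int.units_eq_one_or (f tt).s with h | h
  · exfalso
    have hx := map_xx_s f he i
    have h1 : f (xx i 1) * f tt * f (xx i 1) = f tt := by
      rw [← map_mul, ← map_mul, rel1]
    have h2 : ∀ j, 2 * (f (xx i 1)).v j = 0 := by
      intro j
      have := congrArg (fun x : Gp k e => x.v j) h1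
      simp only [mul_v, mul_s, hx, h, sg_one, one_mul] at this
      linear_combination this
    apply not_cen_sq he i
    apply cen_map f
    rw [map_mul]
    intro x
    ext j
    · simp [hx]
    · simp only [mul_v, mul_s, hx, sg_one, one_mul]
      linear_combination (1 - sg e x.s) * h2 j
    · simp only [mul_z, mul_v, mul_s, hx, sg_one, one_mul]
      linear_combination x.v j.1.2 * h2 j.1.1 - sg e x.s * x.v j.1.1 * h2 j.1.2
  · exact h

/-- the relation coming from `t² = 1` -/
lemma rel_w (he : 3 ≤ e) (i : Fin k) (p : P k) :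
    2 * (f tt).z p = (f tt).v p.1.1 * (f tt).v p.1.2 := by
  have h := map_tt_s f he i
  have h1 : f tt * f tt = 1 := by
    rw [← map_mul, rel2, map_one]
  have := congrArg (fun x : Gp k e => x.z p) h1
  simp only [mul_z, h, sg_neg_one, one_z] at this
  linear_combination this

/-- the relation coming from `x_i t x_i = t` -/
lemma rel_c (he : 3 ≤ e) (i : Fin k) (p : P k) :
    2 * (f (xx i 1)).z p = (f (xx i 1)).v p.1.1 * (f (xx i 1)).v p.1.2
      + (f tt).v p.1.1 * (f (xx i 1)).v p.1.2 - (f (xx i 1)).v p.1.1 * (f tt).v p.1.2 := by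
  have h := map_tt_s f he i
  have hx := map_xx_s f he i
  have h1 : f (xx i 1) * f tt * f (xx i 1) = f tt := by
    rw [← map_mul, ← map_mul, rel1]
  have := congrArg (fun x : Gp k e => x.z p) h1
  simp only [mul_z, mul_v, mul_s, h, hx, sg_neg_one, sg_one, one_mul] at this
  linear_combination this

lemma adj_symm {i j : Fin k} (h : Adj k i j) : Adj k j i := by
  unfold Adj at *
  tauto

/-- neighbours commute -/
lemma rel3 {i j : Fin k} (h : Adj k i j) : (xx i 1 * xx j 1 : Gp k e) = xx j 1 * xx i 1 := by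
  have key : ∀ i j : Fin k, Adj k i j → ∀ p : P k,
      (Pi.single i (1 : R e) : Fin k → R e) p.1.1 * (Pi.single j (1 : R e) : Fin k → R e) p.1.2
        = 0 := by
    intro i j h p
    by_cases h1 : p.1.1 = i
    · have h2 : p.1.2 ≠ j := by
        intro h2
        apply p.2.2
        rw [h1, h2]
        exact h
      rw [Pi.single_eq_of_ne h2]
      simp
    · rw [Pi.single_eq_of_ne h1]
      simp
  ext q
  · simp
  · simp only [mul_v, xx_v, xx_s, sg_one, one_mul]
    ring
  · simp only [mul_z, xx_v, xx_z, xx_s, sg_one, one_mul]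
    rw [key i j h q, key j i (adj_symm h) q]

/-- the equations satisfied by the matrix of an automorphism -/
lemma rel_adj (he : 3 ≤ e) {i j : Fin k} (h : Adj k i j) {p q : Fin k} (hpq : p ≠ q)
    (hna : ¬ Adj k p q) :
    (f (xx i 1)).v p * (f (xx j 1)).v q = (f (xx j 1)).v p * (f (xx i 1)).v q := by
  have hi := map_xx_s f he i
  have hj := map_xx_s f he j
  have h1 : f (xx i 1) * f (xx j 1) = f (xx j 1) * f (xx i 1) := by
    rw [← map_mul, ← map_mul, rel3 h]
  have key : ∀ r : P k, (f (xx i 1)).v r.1.1 * (f (xx j 1)).v r.1.2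
      = (f (xx j 1)).v r.1.1 * (f (xx i 1)).v r.1.2 := by
    intro r
    have := congrArg (fun x : Gp k e => x.z r) h1
    simp only [mul_z, hi, hj, sg_one, one_mul] at this
    linear_combination this
  rcases lt_or_gt_of_ne hpq with hlt | hlt
  · exact key ⟨(p, q), hlt, hna⟩
  · have := key ⟨(q, p), hlt, fun h' => hna (adj_symm h')⟩
    simp only at this
    linear_combination -this


/-! ### elements trivial modulo 2 -/

lemma two_dvd_of (he : 3 ≤ e) {x : R e} (h : 2 * x = 0) : 2 ∣ x := by
  have : NeZero (2 ^ e) := ⟨by positivity⟩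
  have h1 : ((2 * x.val : ℕ) : R e) = 0 := by
    push_cast
    rw [ZMod.natCast_zmod_val]
    exact h
  rw [ZMod.natCast_eq_zero_iff] at h1
  obtain ⟨c, rfl⟩ : ∃ c, e = c + 2 := ⟨e - 2, by omega⟩
  have h2 : 2 ∣ x.val := by
    have h3 : 2 ^ (c + 2) = 2 * (2 * 2 ^ c) := by ring
    have h1' : 2 * (2 * 2 ^ c) ∣ 2 * x.val := h3 ▸ h1
    have h4 := Nat.dvd_of_mul_dvd_mul_left (by norm_num) h1'
    exact dvd_trans (Dvd.intro _ rfl) h4
  obtain ⟨d, hd⟩ := h2
  refine ⟨(d : R (c + 2)), ?_⟩
  have : ((x.val : ℕ) : R (c + 2)) = ((2 * d : ℕ) : R (c + 2)) := by rw [hd]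
  rw [ZMod.natCast_zmod_val] at this
  rw [this]
  push_cast
  rfl

/-- all coordinates of the `v`-part are even -/
def Ev (g : Gp k e) : Prop := ∀ i, 2 ∣ g.v i

lemma ev_mul {g h : Gp k e} (hg : Ev g) (hh : Ev h) : Ev (g * h) := by
  intro i
  rw [mul_v]
  exact dvd_add (hg i) (Dvd.dvd.mul_left (hh i) _)

lemma ev_sq (g : Gp k e) : Ev (g * g) := by
  intro i
  rw [mul_v]
  rcases Int.units_eq_one_or g.s with h | h
  · rw [h, sg_one]
    exact ⟨g.v i, by ring⟩
  · rw [h, sg_neg_one]
    exact ⟨0, by ring⟩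

lemma cen_zz (z : P k → R e) : Cen (zz z : Gp k e) := by
  intro x
  ext j
  · simp
  · simp [sg_one]
  · simp only [mul_z, zz_z, zz_v, zz_s, sg_one]
    ring

lemma ev_map (he : 3 ≤ e) {m : Gp k e} (hs : m.s = 1) (hm : Ev m) : Ev (f m) := by
  choose v' hv' using hm
  have h : m = ({ s := 1, v := v', z := fun _ => 0 } : Gp k e) * { s := 1, v := v', z := fun _ => 0 }
      * zz (fun p => m.z p - v' p.1.1 * v' p.1.2) := by
    ext j
    · simp [hs]
    · simp only [mul_v, zz_v, sg_one, hv' j]
      ring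
    · simp only [mul_z, mul_v, zz_v, zz_z, sg_one, mul_zero, add_zero]
      ring
  rw [h, map_mul, map_mul]
  apply ev_mul (ev_sq _)
  intro i
  exact two_dvd_of he (cen_four (map_cen f (cen_zz _)) i)

/-- `f` is trivial modulo 2 on the generators `x_i` -/
def Triv (f : MulAut (Gp k e)) : Prop :=
  ∀ i j, 2 ∣ (f (xx i 1)).v j - (Pi.single i (1 : R e) : Fin k → R e) j

lemma triv_of_congr (he : 3 ≤ e) (f g : MulAut (Gp k e))
    (h : ∀ i j, 2 ∣ (g (xx i 1)).v j - (f (xx i 1)).v j) : Triv (f⁻¹ * g) := by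
  intro i j
  have hf := map_xx_s f he i
  have hg := map_xx_s g he i
  have h1 : g (xx i 1) = f (xx i 1) * ((f (xx i 1))⁻¹ * g (xx i 1)) := by group
  have h2 : (f⁻¹ * g) (xx i 1) = xx i 1 * f⁻¹ ((f (xx i 1))⁻¹ * g (xx i 1)) := by
    rw [MulAut.mul_apply]
    conv_lhs => rw [h1]
    rw [map_mul, MulAut.inv_apply_self]
  have h3 : Ev (f⁻¹ ((f (xx i 1))⁻¹ * g (xx i 1))) := by
    apply ev_map _ he
    · simp [hf, hg]
    · intro l
      simp only [mul_v, inv_v, inv_s, hf, sg_one, one_mul]
      have := h i l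
      rwa [neg_add_eq_sub]
  rw [h2, mul_v, xx_v, xx_s, sg_one, one_mul, add_sub_cancel_left]
  exact h3 j

lemma exists_adj (hk : 5 ≤ k) {i p : Fin k} (h : p ≠ i) :
    ∃ j, Adj k i j ∧ p ≠ j ∧ ¬ Adj k p j := by
  have hi := i.isLt
  have hp := p.isLt
  have hne : p.val ≠ i.val := fun h' => h (Fin.ext h')
  by_cases h1 : i.val + 1 < k
  · by_cases h2 : i.val = 0
    · by_cases h3 : p.val = 1 ∨ p.val = 2
      · refine ⟨⟨k - 1, by omega⟩, ?_, ?_, ?_⟩
        · unfold Adj; simp only; omega
        · intro h'; have := congrArg Fin.val h'; simp only at this; omega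
        · unfold Adj; simp only; omega
      · refine ⟨⟨1, by omega⟩, ?_, ?_, ?_⟩
        · unfold Adj; simp only; omega
        · intro h'; have := congrArg Fin.val h'; simp only at this; omega
        · unfold Adj; simp only; omega
    · by_cases h3 : p.val = i.val + 1 ∨ p.val = i.val + 2 ∨ (p.val = 0 ∧ i.val + 2 = k)
      · refine ⟨⟨i.val - 1, by omega⟩, ?_, ?_, ?_⟩
        · unfold Adj; simp only; omega
        · intro h'; have := congrArg Fin.val h'; simp only at this; omega
        · unfold Adj; simp only; omega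
      · refine ⟨⟨i.val + 1, by omega⟩, ?_, ?_, ?_⟩
        · exact Or.inl rfl
        · intro h'; have := congrArg Fin.val h'; simp only at this; omega
        · unfold Adj; simp only; omega
  · by_cases h3 : p.val = 0 ∨ p.val = 1
    · refine ⟨⟨i.val - 1, by omega⟩, ?_, ?_, ?_⟩
      · unfold Adj; simp only; omega
      · intro h'; have := congrArg Fin.val h'; simp only at this; omega
      · unfold Adj; simp only; omega
    · refine ⟨⟨0, by omega⟩, ?_, ?_, ?_⟩
      · exact Or.inr (Or.inr (Or.inr ⟨rfl, by omega⟩))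
      · intro h'; have := congrArg Fin.val h'; simp only at this; omega
      · unfold Adj; simp only; omega

lemma adj_ne (hk : 5 ≤ k) {i j : Fin k} (h : Adj k i j) : i ≠ j := by
  rintro rfl
  unfold Adj at h
  omega

/-- the off-diagonal entries of an automorphism that is trivial modulo 2 vanish -/
lemma rigid (hk : 5 ≤ k) (he : 3 ≤ e) (hf : Triv f) {i p : Fin k} (h : p ≠ i) :
    (f (xx i 1)).v p = 0 := by
  have key : ∀ m : ℕ, ∀ i p : Fin k, p ≠ i → (2 : R e) ^ (m + 1) ∣ (f (xx i 1)).v p := by
    intro m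
    induction m with
    | zero =>
      intro i p h
      have := hf i p
      rw [Pi.single_eq_of_ne h, sub_zero] at this
      simpa using this
    | succ m ih =>
      intro i p h
      obtain ⟨j, h1, h2, h3⟩ := exists_adj hk h
      have h4 := rel_adj f he h1 h2 h3
      obtain ⟨a, ha⟩ := ih j p h2
      obtain ⟨b, hb⟩ := ih i j (adj_ne hk h1).symm
      have hu : IsUnit ((f (xx j 1)).v j) := by
        obtain ⟨c, hc⟩ := hf j j
        rw [Pi.single_eq_same] at hc
        have h5 : (f (xx j 1)).v j = 1 + 2 * c := by linear_combination hc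
        rw [h5]
        apply IsNilpotent.isUnit_one_add
        refine ⟨e, ?_⟩
        rw [mul_pow]
        have : (2 : R e) ^ e = 0 := by
          have := ZMod.natCast_self (2 ^ e)
          exact_mod_cast this
        rw [this, zero_mul]
      obtain ⟨u, hu⟩ := hu
      have h6 : (f (xx i 1)).v p = (2 : R e) ^ (m + 1 + 1) * (2 ^ m * a * b * ↑u⁻¹) := by
        have h7 : (f (xx i 1)).v p = (f (xx i 1)).v p * (f (xx j 1)).v j * ↑u⁻¹ := by
          rw [← hu, mul_assoc, Units.mul_inv, mul_one]
        rw [h7, h4, ha, hb]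
        ring
      rw [h6]
      exact Dvd.intro _ rfl
  obtain ⟨a, ha⟩ := key (e - 1) i p h
  rw [ha]
  have h1 : e - 1 + 1 = e := by omega
  rw [h1]
  have : (2 : R e) ^ e = 0 := by
    have := ZMod.natCast_self (2 ^ e)
    exact_mod_cast this
  rw [this, zero_mul]


/-! ### counting -/

/-- the leading bit -/
def bit (x : R e) : Bool := decide (2 ^ (e - 1) ≤ x.val)

lemma eq_of_bit (he : 3 ≤ e) {x y : R e} (h : 2 * x = 2 * y) (hb : bit x = bit y) : x = y := by
  have : NeZero (2 ^ e) := ⟨by positivity⟩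
  have h1 : ((2 * x.val : ℕ) : R e) = ((2 * y.val : ℕ) : R e) := by
    push_cast
    rw [ZMod.natCast_zmod_val, ZMod.natCast_zmod_val]
    exact h
  rw [ZMod.natCast_eq_natCast_iff] at h1
  have hx := ZMod.val_lt x
  have hy := ZMod.val_lt y
  have h2 : 2 ^ e = 2 * 2 ^ (e - 1) := by
    rw [← pow_succ']
    congr 1
    omega
  have h3 : x.val ≡ y.val [MOD 2 ^ (e - 1)] := by
    have h1' : 2 * x.val ≡ 2 * y.val [MOD 2 * 2 ^ (e - 1)] := h2 ▸ h1
    exact Nat.ModEq.mul_left_cancel' (by norm_num) h1'
  have hx' : x.val < 2 * 2 ^ (e - 1) := h2 ▸ hx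
  have hy' : y.val < 2 * 2 ^ (e - 1) := h2 ▸ hy
  have hpos : 0 < 2 ^ (e - 1) := by positivity
  have h4 : x.val / 2 ^ (e - 1) = y.val / 2 ^ (e - 1) := by
    by_cases hc : 2 ^ (e - 1) ≤ x.val
    · have hc' : 2 ^ (e - 1) ≤ y.val := by
        have : bit x = true := by simp [bit, hc]
        rw [hb] at this
        simpa [bit] using this
      rw [Nat.div_eq_of_lt_le (k := 1) (by omega) (by omega),
        Nat.div_eq_of_lt_le (k := 1) (by omega) (by omega)]
    · have hc' : ¬ 2 ^ (e - 1) ≤ y.val := by
        have : bit x = false := by simp [bit]; omega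
        rw [hb] at this
        simpa [bit] using this
      rw [Nat.div_eq_of_lt (by omega), Nat.div_eq_of_lt (by omega)]
  have h5 : x.val = y.val := by
    rw [← Nat.div_add_mod x.val (2 ^ (e - 1)), ← Nat.div_add_mod y.val (2 ^ (e - 1)), h4, h3]
  exact ZMod.val_injective _ h5

/-- data determining an automorphism that is trivial modulo 2 -/
abbrev Data (k e : ℕ) : Type :=
  (Fin k → R e) × (Fin k → R e) × (P k → Bool) × (Fin k → P k → Bool)

/-- the data of an automorphism -/
def data (f : MulAut (Gp k e)) : Data k e :=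
  ((f tt).v, fun i => (f (xx i 1)).v i, fun p => bit ((f tt).z p),
    fun i p => bit ((f (xx i 1)).z p))

lemma data_inj (hk : 5 ≤ k) (he : 3 ≤ e) {f g : MulAut (Gp k e)} (hf : Triv f) (hg : Triv g)
    (h : data f = data g) : f = g := by
  have : NeZero (2 ^ e) := ⟨by positivity⟩
  let i0 : Fin k := ⟨0, by omega⟩
  simp only [data, Prod.mk.injEq] at h
  obtain ⟨h1, h2, h3, h4⟩ := h
  have hv : ∀ i, (f (xx i 1)).v = (g (xx i 1)).v := by
    intro i
    funext j
    by_cases hj : j = i
    · subst hj
      exact congrFun h2 j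
    · rw [rigid f hk he hf hj, rigid g hk he hg hj]
  apply aut_ext
  · ext j
    · rw [map_tt_s f he i0, map_tt_s g he i0]
    · rw [h1]
    · apply eq_of_bit he
      · rw [rel_w f he i0, rel_w g he i0, h1]
      · exact congrFun h3 j
  · intro i
    ext j
    · rw [map_xx_s f he i, map_xx_s g he i]
    · rw [hv]
    · apply eq_of_bit he
      · rw [rel_c f he, rel_c g he, h1, hv]
      · exact congrFun (congrFun h4 i) j

/-- reduction modulo 2 -/
def red (he : 3 ≤ e) (f : MulAut (Gp k e)) : Fin k → Fin k → ZMod 2 :=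
  fun i j => ZMod.castHom (dvd_pow_self 2 (by omega : e ≠ 0)) (ZMod 2) ((f (xx i 1)).v j)

lemma two_dvd_of_cast (he : 3 ≤ e) {x : R e}
    (h : ZMod.castHom (dvd_pow_self 2 (by omega : e ≠ 0)) (ZMod 2) x = 0) : 2 ∣ x := by
  have : NeZero (2 ^ e) := ⟨by positivity⟩
  have h1 : x = ((x.val : ℕ) : R e) := (ZMod.natCast_zmod_val x).symm
  rw [h1, map_natCast, ZMod.natCast_eq_zero_iff] at h
  obtain ⟨d, hd⟩ := h
  refine ⟨(d : R e), ?_⟩
  rw [h1, hd]
  push_cast
  rfl

lemma triv_of_red (he : 3 ≤ e) {f g : MulAut (Gp k e)} (h : red he f = red he g) :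
    Triv (f⁻¹ * g) := by
  apply triv_of_congr he
  intro i j
  apply two_dvd_of_cast he
  have := congrFun (congrFun h i) j
  simp only [red] at this
  rw [map_sub, this, sub_self]

instance : Nonempty (MulAut (Gp k e)) := ⟨1⟩

/-- the injection of the automorphism group into a small set -/
noncomputable def enc (he : 3 ≤ e) (f : MulAut (Gp k e)) :
    (Fin k → Fin k → ZMod 2) × Data k e :=
  (red he f, data ((Function.invFun (red he) (red he f))⁻¹ * f))

lemma enc_inj (hk : 5 ≤ k) (he : 3 ≤ e) : Function.Injective (enc (k := k) he) := by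
  intro f g h
  simp only [enc, Prod.mk.injEq] at h
  obtain ⟨h1, h2⟩ := h
  have h3 : red he (Function.invFun (red he) (red he f)) = red he f :=
    Function.invFun_eq ⟨f, rfl⟩
  have h4 : red he (Function.invFun (red he) (red he f)) = red he g := h3.trans h1
  rw [← h1] at h2
  have := data_inj hk he (triv_of_red he h3) (triv_of_red he h4) h2
  exact mul_left_cancel this

/-- the group as a product of sets -/
def gpEquiv (k e : ℕ) : Gp k e ≃ ℤˣ × (Fin k → R e) × (P k → R e) where
  toFun x := (x.s, x.v, x.z)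
  invFun x := { s := x.1, v := x.2.1, z := x.2.2 }
  left_inv _ := rfl
  right_inv _ := rfl

instance : NeZero (2 ^ e) := ⟨by positivity⟩

instance : Finite (Gp k e) := Finite.of_equiv _ (gpEquiv k e).symm

lemma card_gp (k e : ℕ) : Nat.card (Gp k e) = 2 ^ (e * (k + Nat.card (P k)) + 1) := by
  rw [Nat.card_congr (gpEquiv k e), Nat.card_prod, Nat.card_prod, Nat.card_fun, Nat.card_fun,
    Nat.card_zmod, Nat.card_eq_fintype_card, Fintype.card_units_int, Nat.card_fin, ← pow_mul,
    ← pow_mul]
  ring

lemma card_aut (hk : 5 ≤ k) (he : 3 ≤ e) : Nat.card (MulAut (Gp k e)) ≤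
    2 ^ (2 * e * k + (k * k + Nat.card (P k) + k * Nat.card (P k))) := by
  have h := Nat.card_le_card_of_injective _ (enc_inj hk he)
  refine h.trans (le_of_eq ?_)
  simp only [Nat.card_prod, Nat.card_fun, Nat.card_zmod, Nat.card_fin]
  rw [Nat.card_eq_fintype_card (α := Bool), Fintype.card_bool]
  simp only [← pow_mul]
  ring

lemma card_P (m : ℕ) (hm : 1 ≤ m) : m * m ≤ Nat.card (P (2 * m + 3)) := by
  have h := Nat.card_le_card_of_injective
    (fun x : Fin m × Fin m => (⟨(⟨x.1.val, by omega⟩, ⟨x.2.val + m + 1, by omega⟩), by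
      constructor
      · rw [Fin.lt_def]; simp only; omega
      · unfold Adj; simp only; omega⟩ : P (2 * m + 3))) (by
      intro x y hxy
      simp only [Subtype.mk.injEq, Prod.mk.injEq, Fin.mk.injEq] at hxy
      ext
      · exact hxy.1
      · omega)
  simpa [Nat.card_prod] using h

/-- **Negative answer to both questions.** There is no real constant `a > 0` with
`|Aut G| ≥ φ(|G|) ^ a` for all finite groups `G`, not even for all finite 2-groups. -/
theorem result : ∀ a : ℝ, 0 < a → ∃ (G : Type) (_ : Group G), Finite G ∧ IsPGroup 2 G ∧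
    Group.IsNilpotent G ∧
    (Nat.card (MulAut G) : ℝ) < (Nat.totient (Nat.card G) : ℝ) ^ a := by
  intro a ha
  obtain ⟨m, hm⟩ := exists_nat_gt (15 / a)
  have hm1 : 1 ≤ m := by
    by_contra hcon
    have : m = 0 := by omega
    rw [this] at hm
    have : 0 < 15 / a := by positivity
    simp at hm
    linarith
  set k := 2 * m + 3 with hk
  set M := Nat.card (P k) with hM
  have hMm : m * m ≤ M := card_P m hm1
  set e := k * k + M + k * M + 3 with he
  have hk5 : 5 ≤ k := by omega
  have he3 : 3 ≤ e := by omega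
  have hp : IsPGroup 2 (Gp k e) := IsPGroup.of_card (card_gp k e)
  refine ⟨Gp k e, inferInstance, inferInstance, hp, hp.isNilpotent, ?_⟩
  have h1 : (Nat.card (MulAut (Gp k e)) : ℝ) ≤ (2 : ℝ) ^ (2 * e * k + (k * k + M + k * M)) := by
    exact_mod_cast card_aut hk5 he3
  refine lt_of_le_of_lt h1 ?_
  have h2 : Nat.totient (Nat.card (Gp k e)) = 2 ^ (e * (k + M)) := by
    rw [card_gp, Nat.totient_prime_pow_succ Nat.prime_two, ← hM]
    norm_num
  rw [h2]
  push_cast
  rw [← Real.rpow_natCast 2 (e * (k + M)), ← Real.rpow_mul (by norm_num),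
    ← Real.rpow_natCast 2 (2 * e * k + _)]
  apply Real.rpow_lt_rpow_of_exponent_lt (by norm_num)
  push_cast
  have ham : 15 < a * m := by
    rw [div_lt_iff₀ ha] at hm
    linarith
  have hm1' : (1 : ℝ) ≤ m := by exact_mod_cast hm1
  have hMm' : (m : ℝ) * m ≤ M := by exact_mod_cast hMm
  have hkR : (k : ℝ) = 2 * m + 3 := by rw [hk]; push_cast; ring
  have heR : (e : ℝ) = k * k + M + k * M + 3 := by rw [he]; push_cast; ring
  have h3 : (2 * k + 1 : ℝ) ≤ a * (k + M) := by
    have h4 : a * (m * m) ≤ a * M := mul_le_mul_of_nonneg_left hMm' ha.le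
    have h5 : 15 * (m : ℝ) ≤ a * m * m := mul_le_mul_of_nonneg_right ham.le (by linarith)
    have h6 : 0 ≤ a * k := by positivity
    rw [hkR] at *
    nlinarith
  have hepos : (0 : ℝ) ≤ e := by positivity
  have h7 : (e : ℝ) * (2 * k + 1) ≤ e * (a * (k + M)) := mul_le_mul_of_nonneg_left h3 hepos
  nlinarith

end Pool.Agent.Results.MP_a94181_al.SmallAut
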